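import Pool.Agent.T9h59.NR.Fin

/-!
# MP_b6b996_nt: multiplicative functions close to the Möbius function

`F_R(x) = ∑_{n ≤ R} μ(n) e(nx)`. The question is whether `F_R(x) = O(R^(1/2 + ε))` uniformly on the
circle; the starting theorem `SqrtBoundFails` shows that `F_R(x) = O(√R)` is false. Here both are
shown to be properties of a large class of multiplicative functions `f`: those for which the
distance `∑_p |f(p) + χ(p) p^(it)| p^(-1/2)` to a twist of the Möbius function by a Dirichlet
character and `n^(it)` is finite, with the corresponding condition at the prime powers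
(`Near`). For these the sum `∑_{n ≤ R} f(n) e(nx)` is not `O(√R)`, also with weights modulo `P` nonzero
at exactly the units and on arcs of length `φ(P) / P`, and the growth exponents of all of them are
the same: each of them has exponent `1/2` if and only if Q1 is true. There is no condition at the
small primes for the lower bound, and no bound for `|f|` is assumed. Examples are
`f(n) = μ(n) χ(n) n^(it) g(n)` with `g` multiplicative, `|g(p) - 1| ≤ A p^(-δ)`, `δ > 1/2`, such as
`μ(n) n / φ(n)` and `μ(n) (φ(n) / n)^k`, and (for the exponents) the Liouville function.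

Method. `f` is the Dirichlet convolution of `μ χ n^(it)` and a function `h`, `h(p^k)` is the defect
below. For a suitable `P` the part of `h` prime to `P` is a small perturbation of the identity in
the weighted algebra with the norm `∑ |h(n)| n^(-b)`, so that it can be removed by an induction on
`R`; the parts prime to `P` are related to the sums over all integers by finite Fourier analysis
and, for `μ`, by the identities of `ShortArcs`, and `n^(it)` is removed by partial summation.
-/

set_option autoImplicit false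

open Filter Topology

namespace Pool.Agent.Results.MP_b6b996_nt.CloseToMoebius

/-- The exponential sum `∑_{n=1}^R c(n) e^{2πinx}`. -/
noncomputable def S (c : ℕ → ℂ) (R : ℕ) (x : ℝ) : ℂ :=
  ∑ n ∈ Finset.Icc 1 R, c n * Complex.exp (2 * Real.pi * Complex.I * n * x)

/-- The Möbius function. -/
noncomputable def mu (n : ℕ) : ℂ := ((ArithmeticFunction.moebius n : ℤ) : ℂ)

/-- The Liouville function `λ(n) = (-1)^Ω(n)`. -/
noncomputable def la (n : ℕ) : ℂ := ((ArithmeticFunction.liouville n : ℤ) : ℂ)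

/-- `w` is a weight modulo `P` which is nonzero at exactly the units. -/
def UnitWeight (P : ℕ) (w : ZMod P → ℂ) : Prop := ∀ u : ZMod P, w u ≠ 0 ↔ IsUnit u

/-- The product of a weight modulo `P` and an arithmetic function. -/
noncomputable def wt {P : ℕ} (w : ZMod P → ℂ) (f : ℕ → ℂ) (n : ℕ) : ℂ := w (n : ZMod P) * f n

/-- The twist `T(n) = χ(n) n^(it)`. -/
noncomputable def twist {m : ℕ} (χ : DirichletCharacter ℂ m) (t : ℝ) (n : ℕ) : ℂ :=
  χ (n : ZMod m) * (n : ℂ) ^ ((t : ℂ) * Complex.I)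

/-- The defect `∑_{j ≤ k} f(p^j) T(p)^(k - j)`. It is zero for all `k ≥ 1` if `f = μ T`, and
`f(p) + T(p)` for `k = 1` if `f(1) = 1`. -/
noncomputable def defect (T f : ℕ → ℂ) (p k : ℕ) : ℂ :=
  ∑ j ∈ Finset.range (k + 1), f (p ^ j) * T p ^ (k - j)

/-- The defects of `f` at the powers of the primes `p > y` are summable with the weights
`p^(-b k)`: `∑_{p > y} ∑_{k ≥ 1} |defect p k| p^(-b k) < ∞`. -/
def Near (T f : ℕ → ℂ) (b : ℝ) (y : ℕ) : Prop := Summable fun q : ℕ × ℕ =>
  if q.1.Prime ∧ y < q.1 then ‖defect T f q.1 (q.2 + 1)‖ * ((q.1 : ℝ) ^ (q.2 + 1)) ^ (-b) else 0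

/-- `∑_{n ≤ R} c(n) e(nx) = O(R^(a + ε))` for every `ε > 0`, uniformly in `x`. -/
def Bound (c : ℕ → ℂ) (a : ℝ) : Prop := ∀ ε : ℝ, 0 < ε → ∃ C : ℝ, ∀ (R : ℕ) (x : ℝ),
  ‖S c R x‖ ≤ C * (R : ℝ) ^ (a + ε)

/-- `∑_{n ≤ R} c(n) e(nx) = O(R^(a + ε))` for every `ε > 0`, uniformly in `α ≤ x ≤ β`. -/
def ArcBound (c : ℕ → ℂ) (a α β : ℝ) : Prop := ∀ ε : ℝ, 0 < ε → ∃ C : ℝ, ∀ (R : ℕ),
  ∀ x ∈ Set.Icc α β, ‖S c R x‖ ≤ C * (R : ℝ) ^ (a + ε)

/-- **Multiplicative functions close to the Möbius function.** Let `T(n) = χ(n) n^(it)`, `χ` a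
Dirichlet character, `t` real, and let `f` be multiplicative. Let `w` be a weight modulo `P` which is
nonzero at exactly the units and `[α, β]` an arc of length at least `φ(P) / P` (for `P = 1` the
circle).
(1) If `Near T f (1/2) y` for some `y` then for every `C` there are arbitrarily large `R` and points
`x` of the arc with `|∑_{n ≤ R} w(n) f(n) e(nx)| > C √R`.
(2) Let `a ≥ 0` and `Near T f b y` for some `y` and all `b > a`. Then a bound `O(R^(a + ε))` for the sums
with the coefficients `w f`, uniformly on the arc, implies the same bound for `μ` on the circle; and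
if `y = 0` then the bounds for `μ`, `f`, `w f` on the circle and for `w f` on the arc are
equivalent. For `a = 1/2` the bound for `μ` is Q1.
(3) If `f` is supported on the squarefree numbers and `b > 0` then `∑_p |f(p) + T(p)| p^(-b) < ∞`
is sufficient for `Near T f b 0`.
(4) If `g` is multiplicative with `|g(p) - 1| ≤ A p^(-δ)` for all primes `p` then `Near T (μ T g) b 0`
for all `b > 0` with `b > 1 - δ`.
(5) `Near 1 λ b 0` for all `b > 1/2`. -/
theorem result :
    (∀ (m : ℕ) (χ : DirichletCharacter ℂ m) (t : ℝ) (f : ArithmeticFunction ℂ) (y : ℕ), 0 < m →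
      f.IsMultiplicative → Near (twist χ t) f (1 / 2) y →
      ∀ (P : ℕ) (w : ZMod P → ℂ) (α β : ℝ), 0 < P → UnitWeight P w →
      (P.totient : ℝ) ≤ P * (β - α) →
      ∀ C : ℝ, ∃ᶠ R : ℕ in atTop, ∃ x ∈ Set.Icc α β, C * Real.sqrt R < ‖S (wt w f) R x‖) ∧
    (∀ (m : ℕ) (χ : DirichletCharacter ℂ m) (t : ℝ) (f : ArithmeticFunction ℂ) (a : ℝ) (y : ℕ),
      0 < m → f.IsMultiplicative → 0 ≤ a → (∀ b : ℝ, a < b → Near (twist χ t) f b y) →
      ∀ (P : ℕ) (w : ZMod P → ℂ) (α β : ℝ), 0 < P → UnitWeight P w →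
      (P.totient : ℝ) ≤ P * (β - α) →
      (ArcBound (wt w f) a α β → Bound mu a) ∧
      (y = 0 → List.TFAE [Bound mu a, Bound f a, Bound (wt w f) a, ArcBound (wt w f) a α β])) ∧
    (∀ (m : ℕ) (χ : DirichletCharacter ℂ m) (t : ℝ) (f : ArithmeticFunction ℂ) (b : ℝ),
      f.IsMultiplicative → (∀ n : ℕ, ¬ Squarefree n → f n = 0) → 0 < b →
      (Summable fun p : ℕ => if p.Prime then ‖f p + twist χ t p‖ * (p : ℝ) ^ (-b) else 0) →
      Near (twist χ t) f b 0) ∧
    (∀ (m : ℕ) (χ : DirichletCharacter ℂ m) (t : ℝ) (g : ArithmeticFunction ℂ) (A δ b : ℝ),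
      g.IsMultiplicative → (∀ p : ℕ, p.Prime → ‖g p - 1‖ ≤ A * (p : ℝ) ^ (-δ)) →
      0 < b → 1 - δ < b → Near (twist χ t) (fun n => mu n * twist χ t n * g n) b 0) ∧
    (∀ b : ℝ, 1 / 2 < b → Near (fun _ => 1) la b 0) := by
  refine ⟨?_, ?_, ?_, ?_, ?_⟩
  · intro m χ t f y hm hf hs P w α β hP hw hαβ C
    exact Pool.Agent.T9h59.NR.omega_near hP hw hm χ t hf y hs hαβ C
  · intro m χ t f a y hm hf ha hs P w α β hP hw hαβ
    have harc : ArcBound (wt w f) a α β ↔ Bound (wt w f) a := forall₂_congr fun ε _ =>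
      Pool.Agent.N375.LM.AB_iff hP hw (fun n => f n) (a + ε) hαβ
    have h1 : Bound (wt w f) a → Bound mu a := fun h ε hε =>
      Pool.Agent.T9h59.NR.UB_w_iff hP hw hm χ t hf (by linarith) y (hs _ (by linarith)) (h ε hε)
    refine ⟨fun h => h1 (harc.1 h), ?_⟩
    rintro rfl
    have h2 : Bound mu a → Bound (wt w f) a := fun h ε hε =>
      Pool.Agent.T9h59.NR.UB_w_of hP w hm χ t hf (by linarith) (hs _ (by linarith)) (h ε hε)
    have h3 : Bound f a → Bound mu a := fun h ε hε =>
      Pool.Agent.T9h59.NR.UB_w_iff one_pos Pool.Agent.T9h59.NR.unit_one hm χ t hf (by linarith) 0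
        (hs _ (by linarith)) (Pool.Agent.T9h59.NR.UB_one_weight.2 (h ε hε))
    have h4 : Bound mu a → Bound f a := fun h ε hε =>
      Pool.Agent.T9h59.NR.UB_one_weight.1
        (Pool.Agent.T9h59.NR.UB_w_of one_pos (fun _ => 1) hm χ t hf (by linarith)
          (hs _ (by linarith)) (h ε hε))
    tfae_have 1 ↔ 2 := ⟨h4, h3⟩
    tfae_have 1 ↔ 3 := ⟨h2, h1⟩
    tfae_have 4 ↔ 3 := harc
    tfae_finish
  · intro m χ t f b hf hsq hb hs
    exact Pool.Agent.T9h59.NR.near_sqf χ t hf.map_one hsq hb hs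
  · intro m χ t g A δ b hg hgp hb hbδ
    exact Pool.Agent.T9h59.NR.near_g χ t hg.map_one hgp hb (by linarith)
  · intro b hb
    exact Pool.Agent.T9h59.NR.near_li hb

end Pool.Agent.Results.MP_b6b996_nt.CloseToMoebius
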